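import Pool.Agent.Run7.h500.RD.Stm
/-! Project RD (helper500): piece LIOU (helper73). -/
set_option autoImplicit false
open MeasureTheory Filter Topology Set

namespace Pool.Agent.Run7.h73.RD

open Pool.Agent.Run7.h500.RD

lemma decay (hD : S_DISC) (H : ℂ → ℂ) (A : ℝ) (m : ℕ) (hH : Differentiable ℂ H) (hA : 0 ≤ A)
    (hb : ∀ w : ℂ, w.im ≠ 0 → ‖H w‖ ≤ A * (1 + ‖w‖) ^ m / |w.im| ^ (m + 1))
    (z : ℂ) (hz : 1 ≤ ‖z‖) : ‖H z‖ ≤ A * 3 ^ m * 32 ^ (m + 1) / ‖z‖ := by
  have hz0 : 0 < ‖z‖ := by linarith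
  by_cases h : ‖z‖ / 8 ≤ |z.im|
  · have him : 0 < |z.im| := by linarith [div_pos hz0 (by norm_num : (0:ℝ) < 8)]
    have h1 := hb z (abs_pos.mp him)
    have h2 : A * (1 + ‖z‖) ^ m / |z.im| ^ (m + 1) ≤ A * (3 * ‖z‖) ^ m / (‖z‖ / 32) ^ (m + 1) := by
      have h3 : (1 + ‖z‖) ^ m ≤ (3 * ‖z‖) ^ m := pow_le_pow_left₀ (by positivity) (by linarith) m
      have h4 : (‖z‖ / 32) ^ (m + 1) ≤ |z.im| ^ (m + 1) :=
        pow_le_pow_left₀ (by positivity) (by linarith) _
      exact div_le_div₀ (by positivity) (mul_le_mul_of_nonneg_left h3 hA) (by positivity) h4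
    refine (h1.trans h2).trans (le_of_eq ?_)
    rw [mul_pow, div_pow, pow_succ ‖z‖ m]
    field_simp
  · push Not at h
    have hu1 : |z.re| ≤ ‖z‖ := Complex.abs_re_le_norm z
    have hu2 : ‖z‖ ≤ |z.re| + |z.im| := Complex.norm_le_abs_re_add_abs_im z
    have hu3 : 7 / 8 * ‖z‖ < |z.re| := by linarith
    have hu0 : 0 < |z.re| := by linarith
    have hr : 0 < |z.re| / 2 := by linarith
    have h1 := hD H z.re (|z.re| / 2) (A * (1 + 2 * |z.re|) ^ m) (m + 1) hr (by positivity)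
      hH.differentiableOn hH.continuous.continuousOn ?_ z ?_
    · have h2 : A * (1 + 2 * |z.re|) ^ m * 8 ^ (m + 1) / (|z.re| / 2) ^ (m + 1)
          ≤ A * (3 * ‖z‖) ^ m * 8 ^ (m + 1) / (‖z‖ / 4) ^ (m + 1) := by
        have h3 : (1 + 2 * |z.re|) ^ m ≤ (3 * ‖z‖) ^ m :=
          pow_le_pow_left₀ (by positivity) (by linarith) m
        have h4 : (‖z‖ / 4) ^ (m + 1) ≤ (|z.re| / 2) ^ (m + 1) :=
          pow_le_pow_left₀ (by positivity) (by linarith) _
        exact div_le_div₀ (by positivity)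
          (mul_le_mul_of_nonneg_right (mul_le_mul_of_nonneg_left h3 hA) (by positivity))
          (by positivity) h4
      refine (h1.trans h2).trans (le_of_eq ?_)
      rw [mul_pow, div_pow, pow_succ ‖z‖ m]
      have h5 : (32 : ℝ) ^ (m + 1) = 8 ^ (m + 1) * 4 ^ (m + 1) := by
        rw [← mul_pow]; norm_num
      rw [h5]
      field_simp
    · intro y hy hyi
      have h2 := hb y hyi
      have h3 : ‖y‖ ≤ 2 * |z.re| := by
        have h4 : ‖y - (z.re : ℂ)‖ = |z.re| / 2 := by simpa [dist_eq_norm] using hy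
        have h5 : ‖y‖ ≤ ‖y - (z.re : ℂ)‖ + ‖(z.re : ℂ)‖ := by
          have := norm_add_le (y - (z.re : ℂ)) (z.re : ℂ)
          simpa using this
        have h6 : ‖(z.re : ℂ)‖ = |z.re| := by simp
        rw [h4, h6] at h5
        linarith
      refine h2.trans ?_
      have h7 : (1 + ‖y‖) ^ m ≤ (1 + 2 * |z.re|) ^ m :=
        pow_le_pow_left₀ (by positivity) (by linarith) m
      exact div_le_div_of_nonneg_right (mul_le_mul_of_nonneg_left h7 hA) (by positivity)
    · have h2 : z - (z.re : ℂ) = z.im * Complex.I := by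
        apply Complex.ext <;> simp
      have h3 : ‖z - (z.re : ℂ)‖ = |z.im| := by
        rw [h2]; simp
      simp only [Metric.mem_closedBall, dist_eq_norm, h3]
      linarith

theorem t_LIOU : S_LIOU := by
  intro hD H A m hH hA hb w
  have key : Tendsto H (cocompact ℂ) (𝓝 0) := by
    rw [tendsto_zero_iff_norm_tendsto_zero]
    have h1 : Tendsto (fun z : ℂ => A * 3 ^ m * 32 ^ (m + 1) / ‖z‖) (cocompact ℂ) (𝓝 0) :=
      (tendsto_norm_cocompact_atTop (E := ℂ)).const_div_atTop _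
    refine tendsto_of_tendsto_of_tendsto_of_le_of_le' tendsto_const_nhds h1 ?_ ?_
    · exact Eventually.of_forall fun z => norm_nonneg _
    · filter_upwards [(tendsto_norm_cocompact_atTop (E := ℂ)).eventually_ge_atTop 1] with z hz
      exact decay hD H A m hH hA hb z hz
  exact hH.apply_eq_of_tendsto_cocompact w key

end Pool.Agent.Run7.h73.RD
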